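import Mathlib
import Pool.Agent.H67g.G5
import Pool.Agent.H67g.G6
import Pool.Agent.H67g.G7

/-!
# The hole exponent of the Gaussian entire function is not governed by the capacity

For `K = [-2, 2] × [-ε, ε]` the transfinite diameter is at least `1`, but the hole exponent is at
most `(4032 ε³ + o(1)) r⁴`.
-/

set_option autoImplicit false

open Complex Real MeasureTheory ProbabilityTheory Filter Topology Pool.Agent.H67g

namespace Pool.Agent.Results.MP_629fb1_pr.HoleNotCapacity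

/-- The dilated set `r K`. -/
def dil (r : ℝ) (K : Set ℂ) : Set ℂ := (fun z : ℂ => (r : ℂ) * z) '' K

/-- The hole probability exponent `-log Pr(f(z) ≠ 0 for all z ∈ r K)`. -/
noncomputable def holeExp {Ω : Type} [MeasurableSpace Ω] (P : Measure Ω) (ξ : ℕ → Ω → ℂ)
    (K : Set ℂ) (r : ℝ) : ℝ :=
  -Real.log (P (holeEv ξ (dil r K))).toReal

lemma dil_box {ε r : ℝ} (hr : 0 < r) : dil r (box ε 1) = box ε r := by
  ext z
  simp only [dil, box, Set.mem_image, Set.mem_ofPred_eq]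
  constructor
  · rintro ⟨w, ⟨h1, h2⟩, rfl⟩
    rw [Complex.re_ofReal_mul, Complex.im_ofReal_mul, abs_mul, abs_mul, abs_of_pos hr]
    constructor <;> nlinarith
  · rintro ⟨h1, h2⟩
    refine ⟨((r⁻¹ : ℝ) : ℂ) * z, ?_, ?_⟩
    · rw [Complex.re_ofReal_mul, Complex.im_ofReal_mul, abs_mul, abs_mul,
        abs_of_pos (inv_pos.2 hr)]
      constructor
      · rw [inv_mul_le_iff₀ hr]; linarith
      · rw [inv_mul_le_iff₀ hr]; linarith
    · rw [← mul_assoc, ← Complex.ofReal_mul, mul_inv_cancel₀ hr.ne', Complex.ofReal_one, one_mul]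

lemma box_eq (ε : ℝ) : box ε 1 = (Set.Icc (-2) 2 : Set ℝ) ×ℂ (Set.Icc (-ε) ε : Set ℝ) := by
  ext z
  simp only [box, Set.mem_ofPred_eq, Complex.mem_reProdIm, Set.mem_Icc, abs_le, mul_one]

lemma box_compact (ε : ℝ) : IsCompact (box ε 1) := by
  rw [box_eq]; exact isCompact_Icc.reProdIm isCompact_Icc

lemma box_convex (ε : ℝ) : Convex ℝ (box ε 1) := by
  have h1 : box ε 1 = Complex.reLm ⁻¹' (Set.Icc (-2) 2) ∩ Complex.imLm ⁻¹' (Set.Icc (-ε) ε) := by
    rw [box_eq]; rfl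
  rw [h1]
  exact ((convex_Icc _ _).linear_preimage _).inter ((convex_Icc _ _).linear_preimage _)

lemma box_interior {ε : ℝ} (hε : 0 < ε) : (interior (box ε 1)).Nonempty := by
  refine ⟨0, ?_⟩
  rw [box_eq, Complex.interior_reProdIm, interior_Icc, interior_Icc, Complex.mem_reProdIm]
  simp [hε]

lemma exists_data : ∃ (Ω : Type) (_ : MeasurableSpace Ω) (P : Measure Ω) (ξ : ℕ → Ω → ℂ),
    IsIIDGaussian P ξ := by
  refine ⟨ℕ → ℂ, inferInstance, Measure.infinitePi (fun _ : ℕ => stdComplexGaussian),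
    fun n ω => ω n, ?_⟩
  refine ⟨inferInstance, fun n => measurable_pi_apply n, ?_, fun n => ?_⟩
  · exact iIndepFun_infinitePi (P := fun _ : ℕ => stdComplexGaussian)
      (X := fun _ (x : ℂ) => x) (fun _ => measurable_id)
  · exact Measure.infinitePi_map_eval (fun _ : ℕ => stdComplexGaussian) n

/-- For every `δ > 0` there is a convex compact set `K` with non-empty interior, of logarithmic
capacity (transfinite diameter) `c ≥ 1`, such that the Gaussian entire function has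
`p_{H,K}(f; r) ≤ δ r⁴` for all large `r`; in particular `r⁻⁴ p_{H,K}(f; r)` does not converge to
`(e² / 4) c⁴`. -/
theorem result (δ : ℝ) (hδ : 0 < δ) :
    ∃ K : Set ℂ, IsCompact K ∧ Convex ℝ K ∧ IsConnected K ∧ (interior K).Nonempty ∧
      ∃ c : ℝ, 1 ≤ c ∧ Tendsto (diamN K) atTop (𝓝 c) ∧
        (∃ (Ω : Type) (_ : MeasurableSpace Ω) (P : Measure Ω) (ξ : ℕ → Ω → ℂ),
          IsIIDGaussian P ξ) ∧
        ∀ (Ω : Type) [MeasurableSpace Ω] (P : Measure Ω) (ξ : ℕ → Ω → ℂ), IsIIDGaussian P ξ →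
          (∀ r : ℝ, NullMeasurableSet (holeEv ξ (dil r K)) P) ∧
          (∀ᶠ r : ℝ in atTop, 0 < P (holeEv ξ (dil r K)) ∧ holeExp P ξ K r ≤ δ * r ^ 4) ∧
          ¬ Tendsto (fun r : ℝ => holeExp P ξ K r / r ^ 4) atTop
              (𝓝 (Real.exp 2 / 4 * c ^ 4)) := by
  -- the choice of the width
  set δ' : ℝ := min δ 1 with hδ'
  have hδ'0 : 0 < δ' := lt_min hδ one_pos
  have hδ'1 : δ' ≤ 1 := min_le_right _ _
  set ε : ℝ := δ' / 8064 with hε
  have hε0 : 0 < ε := by positivity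
  have hε1 : ε ≤ 1 := by rw [hε]; linarith
  have hε3 : 4032 * ε ^ 3 ≤ δ' / 2 := by
    have h1 : ε ^ 3 ≤ ε := by
      calc ε ^ 3 = ε * ε ^ 2 := by ring
        _ ≤ ε * 1 := mul_le_mul_of_nonneg_left (pow_le_one₀ hε0.le hε1) hε0.le
        _ = ε := mul_one _
    have h2 : 4032 * ε = δ' / 2 := by rw [hε]; ring
    linarith
  have hK := box_compact ε
  have hseg : ∀ x : ℝ, |x| ≤ 2 → (x : ℂ) ∈ box ε 1 := by
    intro x hx
    refine ⟨by simpa using hx, by simpa using hε0.le⟩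
  have hc1 := one_le_cap hK hseg
  refine ⟨box ε 1, hK, box_convex ε, (box_convex ε).isConnected ⟨0, interior_subset ?_⟩,
    box_interior hε0, _, hc1, diamN_tendsto hK, exists_data, ?_⟩
  · rw [box_eq, Complex.interior_reProdIm, interior_Icc, interior_Icc, Complex.mem_reProdIm]
    simp [hε0]
  intro Ω _ P ξ h
  have hprob := h.prob
  have hbound : ∀ᶠ r : ℝ in atTop, 0 < P (holeEv ξ (dil r (box ε 1))) ∧
      holeExp P ξ (box ε 1) r ≤ δ' * r ^ 4 := by
    filter_upwards [eventually_ge_atTop (105 / ε ^ 2), eventually_ge_atTop (1 : ℝ),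
      eventually_ge_atTop (1226 / δ')] with r hr1 hr2 hr3
    have hr0 : 0 < r := by linarith
    have hlow := hole_lower h hε0 hε1 hr1
    unfold holeExp
    rw [dil_box hr0]
    change ENNReal.ofReal _ ≤ P (holeEv ξ (box ε r)) at hlow
    set p := P (holeEv ξ (box ε r)) with hp
    have hpos : 0 < p := lt_of_lt_of_le (ENNReal.ofReal_pos.2 (Real.exp_pos _)) hlow
    refine ⟨hpos, ?_⟩
    have hptop : p ≠ ⊤ := measure_ne_top _ _
    have h1 : Real.exp (-(1 + 612 * r ^ 2 + 4032 * ε ^ 3 * r ^ 4)) ≤ p.toReal :=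
      (ENNReal.ofReal_le_iff_le_toReal hptop).1 hlow
    have h2 := Real.log_le_log (Real.exp_pos _) h1
    rw [Real.log_exp] at h2
    have h3 : 1226 ≤ δ' * r := by
      rw [div_le_iff₀ hδ'0] at hr3; linarith
    have h4 : 4032 * ε ^ 3 * r ^ 4 ≤ δ' / 2 * r ^ 4 :=
      mul_le_mul_of_nonneg_right hε3 (by positivity)
    have h5 : 1 + 612 * r ^ 2 ≤ 613 * r ^ 2 := by nlinarith
    have h6 : 613 * r ^ 2 ≤ δ' / 2 * r ^ 4 := by
      have h7 : 1226 * r ^ 3 ≤ δ' * r * r ^ 3 := mul_le_mul_of_nonneg_right h3 (by positivity)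
      have h8 : r ^ 2 ≤ r ^ 3 := by
        calc r ^ 2 = r ^ 2 * 1 := (mul_one _).symm
          _ ≤ r ^ 2 * r := mul_le_mul_of_nonneg_left hr2 (by positivity)
          _ = r ^ 3 := by ring
      nlinarith
    linarith
  refine ⟨fun r => ?_, ?_, ?_⟩
  · exact nullMeasurable_holeEv h (hK.image (by fun_prop))
  · filter_upwards [hbound, eventually_ge_atTop (0 : ℝ)] with r hr hr0
    refine ⟨hr.1, hr.2.trans ?_⟩
    exact mul_le_mul_of_nonneg_right (min_le_left _ _) (by positivity)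
  · intro hT
    have hle : ∀ᶠ r : ℝ in atTop, holeExp P ξ (box ε 1) r / r ^ 4 ≤ 1 := by
      filter_upwards [hbound, eventually_gt_atTop (0 : ℝ)] with r hr hr0
      rw [div_le_one (by positivity)]
      refine hr.2.trans ?_
      have : δ' * r ^ 4 ≤ 1 * r ^ 4 := mul_le_mul_of_nonneg_right hδ'1 (by positivity)
      linarith
    have h1 := le_of_tendsto hT hle
    have h2 : 1 < Real.exp 2 / 4 := by
      have h3 : Real.exp 2 = Real.exp 1 ^ 2 := by rw [← Real.exp_nat_mul]; norm_num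
      have h4 := Real.exp_one_gt_d9
      rw [h3]; nlinarith
    have h5 : 1 ≤ (⨅ n : ℕ, diamN (box ε 1) (n + 2)) ^ 4 := one_le_pow₀ hc1
    nlinarith

end Pool.Agent.Results.MP_629fb1_pr.HoleNotCapacity
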